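import Pool.Agent.H85.KS2.Targets

/-!
# MP_ff41bc_an, module MA (minor arcs)
-/

set_option autoImplicit false

open Pool.Agent.H98.KS Pool.Agent.H85.KS2
open scoped BigOperators

namespace Pool.Agent.H70.KS2

lemma PP_continuous (hV2 : T_V2) (k X : ℕ) (hX : 1 ≤ X) : Continuous fun θ => PP k X θ := by
  unfold PP ZV
  have h : ∀ h' : ℤ, Continuous fun θ => VV k X θ h' := fun h' => (hV2 k X h' hX).2
  have h2 : Continuous fun θ => ∑ h' ∈ HH X, VV k X θ h' ^ 1 :=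
    continuous_finsetSum _ fun i _ => (h i).pow 1
  fun_prop

lemma PP_nonneg (k X : ℕ) (θ : ℝ) : 0 ≤ PP k X θ := by
  unfold PP
  positivity

theorem ks2_MA (hWK : T_WK) (hMIN : T_MIN) (hNUM : T_NUM) (hV2 : T_V2) (hZBK : T_ZBK) (hSX : T_SX) (hPI : T_PI) : T_MA := by
  intro k d hk hd
  obtain ⟨A, hA⟩ := hWK k (by omega)
  obtain ⟨c5, C0, hc5, hc51, hC0, hmin⟩ := hMIN k A hk hA
  obtain ⟨-, hs1, hks, -, -, -, -, -, -, -⟩ := hNUM k d hk hd
  set s : ℕ := ss k with hs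
  have hZB : ZB k (s + 1) := hZBK k (s + 1) hk le_rfl
  obtain ⟨C, hC, hpi⟩ := hPI k s hks hZB (c5 / 2) (by linarith)
  set m : ℕ := d - (4 * s + 4) with hm
  have hdm : d = m + (4 * s + 4) := by omega
  have hm1 : 1 ≤ m := by omega
  refine ⟨c5 / 2, C0 ^ m * C, by linarith, by linarith, by positivity, fun X hX => ?_⟩
  have hX0 : (0 : ℝ) < X := by exact_mod_cast hX
  have hX1 : (1 : ℝ) ≤ X := by exact_mod_cast hX
  have hPc := PP_continuous hV2 k X hX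
  have hgc : Continuous fun θ => (C0 * (X : ℝ) ^ (1 - c5)) ^ m * PP k X θ ^ (4 * s + 4) :=
    continuous_const.mul (hPc.pow _)
  have hg0 : ∀ θ, 0 ≤ (C0 * (X : ℝ) ^ (1 - c5)) ^ m * PP k X θ ^ (4 * s + 4) := by
    intro θ
    have := PP_nonneg k X θ
    positivity
  refine ⟨fun θ => (C0 * (X : ℝ) ^ (1 - c5)) ^ m * PP k X θ ^ (4 * s + 4), hgc, hg0, ?_, ?_⟩
  · intro θ hθ ξ
    rw [hdm, pow_add]
    have h1 := hmin X θ ξ hX hθ
    have h2 := hSX k X θ ξ (by omega) hX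
    have h3 := PP_nonneg k X θ
    exact mul_le_mul (pow_le_pow_left₀ (norm_nonneg _) h1 m)
      (pow_le_pow_left₀ (norm_nonneg _) h2 _) (by positivity) (by positivity)
  · have hsub : MinS k X ⊆ Set.Icc (0 : ℝ) 1 := fun θ hθ => ⟨hθ.1, hθ.2.1⟩
    have h1 : ∫ θ in MinS k X, (C0 * (X : ℝ) ^ (1 - c5)) ^ m * PP k X θ ^ (4 * s + 4) ≤
        ∫ θ in Set.Icc (0 : ℝ) 1, (C0 * (X : ℝ) ^ (1 - c5)) ^ m * PP k X θ ^ (4 * s + 4) := by
      refine MeasureTheory.setIntegral_mono_set ?_ ?_ ?_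
      · exact hgc.continuousOn.integrableOn_compact isCompact_Icc
      · exact Filter.Eventually.of_forall hg0
      · exact Filter.Eventually.of_forall hsub
    have h2 : ∫ θ in Set.Icc (0 : ℝ) 1, (C0 * (X : ℝ) ^ (1 - c5)) ^ m * PP k X θ ^ (4 * s + 4) =
        (C0 * (X : ℝ) ^ (1 - c5)) ^ m * ∫ θ in (0 : ℝ)..1, PP k X θ ^ (4 * s + 4) := by
      rw [MeasureTheory.integral_Icc_eq_integral_Ioc, ← intervalIntegral.integral_of_le zero_le_one,
        intervalIntegral.integral_const_mul]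
    have h3 := hpi X hX
    have h4 : (C0 * (X : ℝ) ^ (1 - c5)) ^ m = C0 ^ m * (X : ℝ) ^ ((1 - c5) * m) := by
      rw [mul_pow, ← Real.rpow_natCast ((X : ℝ) ^ (1 - c5)), ← Real.rpow_mul hX0.le]
    refine h1.trans ?_
    rw [h2]
    calc (C0 * (X : ℝ) ^ (1 - c5)) ^ m * ∫ θ in (0 : ℝ)..1, PP k X θ ^ (4 * s + 4)
        ≤ (C0 * (X : ℝ) ^ (1 - c5)) ^ m * (C * (X : ℝ) ^ (4 * (s : ℝ) + 4 - k + c5 / 2)) := by
          gcongr
      _ = C0 ^ m * C * ((X : ℝ) ^ ((1 - c5) * m) * (X : ℝ) ^ (4 * (s : ℝ) + 4 - k + c5 / 2)) := by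
          rw [h4]
          ring
      _ = C0 ^ m * C * (X : ℝ) ^ ((1 - c5) * m + (4 * (s : ℝ) + 4 - k + c5 / 2)) := by
          rw [← Real.rpow_add hX0]
      _ ≤ C0 ^ m * C * (X : ℝ) ^ ((d : ℝ) - k - c5 / 2) := by
          have hexp : (1 - c5) * m + (4 * (s : ℝ) + 4 - k + c5 / 2) ≤ (d : ℝ) - k - c5 / 2 := by
            have hd' : (d : ℝ) = m + (4 * s + 4) := by exact_mod_cast hdm
            have hm1' : (1 : ℝ) ≤ m := by exact_mod_cast hm1
            rw [hd']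
            nlinarith
          gcongr

end Pool.Agent.H70.KS2
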