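import Pool.Agent.H85.KS2.Targets

/-!
# MP_ff41bc_an, module NL2 (one d)
-/

set_option autoImplicit false

open scoped BigOperators

noncomputable section

open Pool.Agent.H98.KS Pool.Agent.H85.KS2

namespace Pool.Agent.H70.KS2

theorem ks2_NL2 (hL4 : T_L4) (hNUM : T_NUM) (hL3b : T_L3b) (hL5b : T_L5b) : T_NL2 := by
  intro k d hk hd
  obtain ⟨hkd, -, -, h4k, -, hk2, -, -, -, -⟩ := hNUM k d hk hd
  obtain ⟨ρ, hρ, h3d⟩ := hL3b k d hk h4k hk2
  obtain ⟨δ, C, hδ, hC, h5d⟩ := hL5b k d hk hd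
  obtain ⟨c, hc, h4d⟩ := hL4 k d (by omega) (by omega)
  have hk0 : (0 : ℝ) < k := by
    have : 0 < k := by omega
    exact_mod_cast this
  have hdk : (0 : ℝ) < (d : ℝ) - k := by
    have : (k : ℝ) < d := by exact_mod_cast hkd
    linarith
  set γ : ℝ := ((d : ℝ) - k) / k with hγ
  have hγ0 : 0 < γ := by positivity
  -- the constants
  set C1 : ℝ := C * 3 ^ (d - k) with hC1
  have hC10 : 0 < C1 := by positivity
  set ε : ℝ := c * ρ / 8 with hε
  have hε0 : 0 < ε := by positivity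
  obtain ⟨K, hK⟩ := exists_nat_gt (2 * C1 / ε)
  set K1 : ℕ := K + 1 with hK1
  have hK1' : C1 * (1 / (K1 : ℝ)) ≤ ε / 2 := by
    have h1 : 2 * C1 / ε < K1 := by rw [hK1]; push_cast; linarith
    have h0 : (0 : ℝ) < K1 := by rw [hK1]; positivity
    rw [mul_one_div, div_le_iff₀ h0]
    rw [div_lt_iff₀ hε0] at h1
    nlinarith
  have hK10 : (1 : ℝ) ≤ K1 := by rw [hK1]; push_cast; linarith [(Nat.cast_nonneg K : (0 : ℝ) ≤ K)]
  set η : ℝ := min 1 (ε / (C1 * K1)) with hη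
  have hη0 : 0 < η := by
    rw [hη]; exact lt_min one_pos (by positivity)
  have hη1 : η ≤ 1 := min_le_left _ _
  have hηK : C1 * (η * K1) ≤ ε := by
    have h1 : η ≤ ε / (C1 * K1) := min_le_right _ _
    calc C1 * (η * K1) = η * (C1 * K1) := by ring
      _ ≤ ε / (C1 * K1) * (C1 * K1) := by gcongr
      _ = ε := by field_simp
  set W : ℕ := Nat.factorial K1 with hW
  have hW1 : 1 ≤ W := Nat.factorial_pos _
  obtain ⟨l0, hl0⟩ := h4d W η hW1 hη0 hη1
  -- the threshold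
  obtain ⟨l1, hl1⟩ := exists_nat_gt ((C1 / ε) ^ ((k : ℝ) / δ))
  set l2 : ℕ := max l0 l1 + 1 with hl2
  set c1 : ℝ := c * ρ / 2 with hc1
  set c3 : ℝ := ((l2 : ℝ) ^ γ)⁻¹ with hc3
  have hl20 : (0 : ℝ) < l2 := by rw [hl2]; positivity
  refine ⟨min c1 c3, lt_min (by positivity) (by positivity), fun l hl hNN => ?_⟩
  have hl' : (1 : ℝ) ≤ l := by exact_mod_cast hl
  rcases lt_or_ge l l2 with hlt | hge
  · -- small l
    have h1 : (1 : ℝ) ≤ NN k d l := by
      have : 1 ≤ NN k d l := Nat.one_le_iff_ne_zero.2 hNN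
      exact_mod_cast this
    calc min c1 c3 * (l : ℝ) ^ γ ≤ c3 * (l2 : ℝ) ^ γ := by
          have h2 : (l : ℝ) ^ γ ≤ (l2 : ℝ) ^ γ :=
            Real.rpow_le_rpow (by positivity) (by exact_mod_cast hlt.le) hγ0.le
          exact mul_le_mul (min_le_right _ _) h2 (by positivity) (by positivity)
      _ = 1 := by
          rw [hc3]
          exact inv_mul_cancel₀ (by positivity)
      _ ≤ NN k d l := h1
  · -- large l
    have hll0 : l0 ≤ l := by omega
    have hll1 : l1 < l := by omega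
    set X : ℕ := ⌈(2 * (l : ℝ)) ^ (1 / (k : ℝ))⌉₊ with hX
    have hXge : (2 * (l : ℝ)) ^ (1 / (k : ℝ)) ≤ X := Nat.le_ceil _
    have hXle : (X : ℝ) ≤ 3 * (l : ℝ) ^ (1 / (k : ℝ)) := by
      have h1 : (X : ℝ) < (2 * (l : ℝ)) ^ (1 / (k : ℝ)) + 1 := Nat.ceil_lt_add_one (by positivity)
      have h2 : (2 * (l : ℝ)) ^ (1 / (k : ℝ)) ≤ 2 * (l : ℝ) ^ (1 / (k : ℝ)) := by
        rw [Real.mul_rpow (by norm_num) (by positivity)]
        have h3 : (2 : ℝ) ^ (1 / (k : ℝ)) ≤ 2 := by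
          calc (2 : ℝ) ^ (1 / (k : ℝ)) ≤ (2 : ℝ) ^ (1 : ℝ) := by
                apply Real.rpow_le_rpow_of_exponent_le (by norm_num)
                rw [div_le_one hk0]
                exact_mod_cast (by omega : 1 ≤ k)
            _ = 2 := by norm_num
        gcongr
      have h3 : (1 : ℝ) ≤ (l : ℝ) ^ (1 / (k : ℝ)) := Real.one_le_rpow hl' (by positivity)
      linarith
    have hXk : 2 * (l : ℝ) ≤ (X : ℝ) ^ k := by
      calc 2 * (l : ℝ) = ((2 * (l : ℝ)) ^ (1 / (k : ℝ))) ^ k := by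
            rw [← Real.rpow_natCast, ← Real.rpow_mul (by positivity)]
            rw [one_div, inv_mul_cancel₀ hk0.ne', Real.rpow_one]
        _ ≤ (X : ℝ) ^ k := by gcongr
    have hXl : (l : ℝ) ^ (1 / (k : ℝ)) ≤ X := by
      refine le_trans ?_ hXge
      exact Real.rpow_le_rpow (by positivity) (by linarith) (by positivity)
    have hX1 : 1 ≤ X := by
      have : (1 : ℝ) ≤ X := le_trans (Real.one_le_rpow hl' (by positivity)) hXl
      exact_mod_cast this
    have hXdk : (X : ℝ) ^ (d - k) ≤ 3 ^ (d - k) * (l : ℝ) ^ γ := by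
      calc (X : ℝ) ^ (d - k) ≤ (3 * (l : ℝ) ^ (1 / (k : ℝ))) ^ (d - k) := by gcongr
        _ = 3 ^ (d - k) * (l : ℝ) ^ γ := by
            rw [mul_pow, ← Real.rpow_natCast ((l : ℝ) ^ (1 / (k : ℝ))), ← Real.rpow_mul (by positivity),
              Nat.cast_sub hkd.le, hγ]
            congr 2
            ring
    set J : ℕ := ⌊η * l / W⌋₊ with hJ
    have hW0 : (0 : ℝ) < W := by exact_mod_cast hW1
    have hJW : ((J * W : ℕ) : ℝ) ≤ η * l := by
      have : (J : ℝ) ≤ η * l / W := Nat.floor_le (by positivity)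
      rw [le_div_iff₀ hW0] at this
      push_cast
      exact this
    have hJWl : J * W ≤ l := by
      have : ((J * W : ℕ) : ℝ) ≤ l := le_trans hJW (by nlinarith)
      exact_mod_cast this
    have hsum : l + J * W ≤ X ^ k := by
      have : ((l + J * W : ℕ) : ℝ) ≤ ((X ^ k : ℕ) : ℝ) := by
        have h1 : ((J * W : ℕ) : ℝ) ≤ l := by exact_mod_cast hJWl
        push_cast at h1 ⊢
        linarith
      exact_mod_cast this
    have hJX : ((J * W : ℕ) : ℝ) ≤ η * (X : ℝ) ^ k := by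
      refine le_trans hJW ?_
      have : (l : ℝ) ≤ (X : ℝ) ^ k := by linarith
      gcongr
    have hcomp := h5d X l W J K1 η K1 hX1 hW1 (by omega) (fun q hq1 hq2 => Nat.dvd_factorial hq1 hq2) hK10
      hη0 hη1 hJWl hsum hJX
    have hav := hl0 l hll0
    have hls := h3d W l hW1
    have hWd : (0 : ℝ) < (W : ℝ) ^ (d - 1) := by positivity
    have hls' : ρ ≤ LS k d W l / (W : ℝ) ^ (d - 1) := by
      rw [le_div_iff₀ hWd]
      exact hls
    have hlγ : (0 : ℝ) < (l : ℝ) ^ γ := by positivity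
    have hav' : c * ρ * (l : ℝ) ^ γ ≤ AvN k d l W J := by
      refine le_trans ?_ hav
      calc c * ρ * (l : ℝ) ^ γ = c * (l : ℝ) ^ γ * ρ := by ring
        _ ≤ c * (l : ℝ) ^ γ * (LS k d W l / (W : ℝ) ^ (d - 1)) := by gcongr
    have hXbig : C1 * (X : ℝ) ^ (-δ) ≤ ε := by
      have hX0 : (0 : ℝ) < X := by exact_mod_cast hX1
      have h3 : C1 / ε ≤ (X : ℝ) ^ δ := by
        have h2 : (C1 / ε) ^ ((k : ℝ) / δ) ≤ (l : ℝ) := by
          have : (l1 : ℝ) ≤ l := by exact_mod_cast hll1.le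
          linarith
        have h5 : (C1 / ε) ^ ((k : ℝ) / δ) ≤ (X : ℝ) ^ (k : ℝ) := by
          rw [Real.rpow_natCast]
          linarith
        calc C1 / ε = ((C1 / ε) ^ ((k : ℝ) / δ)) ^ (δ / (k : ℝ)) := by
              rw [← Real.rpow_mul (by positivity)]
              have : (k : ℝ) / δ * (δ / k) = 1 := by field_simp
              rw [this, Real.rpow_one]
          _ ≤ ((X : ℝ) ^ (k : ℝ)) ^ (δ / (k : ℝ)) :=
              Real.rpow_le_rpow (by positivity) h5 (by positivity)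
          _ = (X : ℝ) ^ δ := by
              rw [← Real.rpow_mul (by positivity)]
              have : (k : ℝ) * (δ / k) = δ := by field_simp
              rw [this]
      rw [Real.rpow_neg hX0.le, ← div_eq_mul_inv, div_le_iff₀ (Real.rpow_pos_of_pos hX0 δ)]
      rw [div_le_iff₀ hε0] at h3
      linarith
    have herr : C * (X : ℝ) ^ (d - k) * (η * K1 + 1 / K1 + 1 / (K1 : ℕ) + (X : ℝ) ^ (-δ)) ≤ 3 * ε * (l : ℝ) ^ γ := by
      have hnn : (0 : ℝ) ≤ η * K1 + 1 / K1 + 1 / (K1 : ℕ) + (X : ℝ) ^ (-δ) := by positivity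
      calc C * (X : ℝ) ^ (d - k) * (η * K1 + 1 / K1 + 1 / (K1 : ℕ) + (X : ℝ) ^ (-δ))
          ≤ C * (3 ^ (d - k) * (l : ℝ) ^ γ) * (η * K1 + 1 / K1 + 1 / (K1 : ℕ) + (X : ℝ) ^ (-δ)) := by gcongr
        _ = (l : ℝ) ^ γ * (C1 * (η * K1) + C1 * (1 / K1) + C1 * (1 / (K1 : ℕ)) + C1 * (X : ℝ) ^ (-δ)) := by
            rw [hC1]; ring
        _ ≤ (l : ℝ) ^ γ * (ε + ε / 2 + ε / 2 + ε) := by gcongr
        _ = 3 * ε * (l : ℝ) ^ γ := by ring
    have habs := (abs_le.1 (le_trans hcomp herr)).1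
    calc min c1 c3 * (l : ℝ) ^ γ ≤ c1 * (l : ℝ) ^ γ := by
          gcongr
          exact min_le_left _ _
      _ ≤ c * ρ * (l : ℝ) ^ γ - 3 * ε * (l : ℝ) ^ γ := by
          rw [hc1, hε]
          nlinarith [mul_pos (mul_pos hc hρ) hlγ]
      _ ≤ NN k d l := by linarith

end Pool.Agent.H70.KS2
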